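import Pool.Agent.W433.HA.Core
import Pool.Agent.W237.HA.Main
import Pool.Agent.W237.HA.Lag
import Pool.Agent.W237.HA.Min
import Pool.Agent.W237.HA.SubQ
import Pool.Agent.W237.HA.Quot
import Pool.Agent.W237.HA.Top
import Pool.Agent.W237.HA.Fix
import Pool.Agent.W237.HA.Triv

/-!
# Preimages of solvable subloops under homomorphisms with solvable kernel
-/

set_option autoImplicit false

namespace Pool.Agent.W155.SY

open H675HL H675HL.HA
open scoped commutatorElement

/-- One step `M ⊆ N` of a subnormal series with abelian group factors: `M` contains `e`, is closed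
under multiplication and normal in `N`, and the factor `N/M` is an abelian group. -/
def Step {X : Type} (mul : X → X → X) (e : X) (M N : Set X) : Prop :=
  M ⊆ N ∧ e ∈ M ∧ (∀ a ∈ M, ∀ b ∈ M, mul a b ∈ M) ∧
    (∀ x ∈ N, ∀ y ∈ N, ∀ m ∈ M,
      (∃ m' ∈ M, mul x m = mul m' x) ∧
      (∃ m' ∈ M, mul (mul m x) y = mul m' (mul x y)) ∧
      (∃ m' ∈ M, mul y (mul x m) = mul (mul y x) m')) ∧
    (∀ x ∈ N, ∀ y ∈ N, ∀ z ∈ N,
      (∃ m ∈ M, mul (mul x y) z = mul (mul x (mul y z)) m) ∧
      (∃ m ∈ M, mul x y = mul (mul y x) m))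

/-- `A` is closed under multiplication and has a subnormal series from `{e}` to `A` with abelian
group factors. -/
def Solv {X : Type} (mul : X → X → X) (e : X) (A : Set X) : Prop :=
  (∀ a ∈ A, ∀ b ∈ A, mul a b ∈ A) ∧
    ∃ (n : ℕ) (S : ℕ → Set X), S 0 = {e} ∧ S n = A ∧ ∀ i < n, Step mul e (S i) (S (i + 1))

lemma hall (Q : Type) [AL Q] [Finite Q] (hs : Sol Q) (P : Set ℕ) : Hall Q P :=
  H675HL.HA.W237.tMain H675HL.HA.W237.tSub H675HL.HA.W237.tQuo H675HL.HA.W237.tTop
    (H675HL.HA.W237.tLag H675HL.HA.W237.tSub H675HL.HA.W237.tTop)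
    (H675HL.HA.W237.tMin H675HL.HA.W237.tSub H675HL.HA.W237.tTop)
    (H675HL.HA.W237.tPre H675HL.HA.W237.tQuo) (H675HL.HA.W237.tHSub H675HL.HA.W237.tSub)
    H675HL.HA.W237.tFix H675HL.HA.W237.tTriv H675HL.HA.tCore Q hs P

lemma series_mem {X : Type} {mul : X → X → X} {e : X} {S : ℕ → Set X} {n : ℕ}
    (h0 : S 0 = {e}) (h : ∀ i < n, Step mul e (S i) (S (i + 1))) (i : ℕ) (hi : i ≤ n) :
    e ∈ S i := by
  induction i with
  | zero => rw [h0]; rfl
  | succ i ih => exact (h i (by omega)).1 (ih (by omega))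

lemma series_sub {X : Type} {mul : X → X → X} {e : X} {S : ℕ → Set X} {n : ℕ}
    (h : ∀ i < n, Step mul e (S i) (S (i + 1))) (i : ℕ) (hi : i ≤ n) : S i ⊆ S n := by
  obtain ⟨k, rfl⟩ := Nat.exists_eq_add_of_le hi
  induction k with
  | zero => exact subset_rfl
  | succ k ih =>
    exact (ih (fun j hj => h j (by omega)) (by omega)).trans (h (i + k) (by omega)).1

section
variable {Q : Type} [AL Q] {K : Type} [Mul K] {f : Q → K}

/-- the preimage of a step -/
lemma step_pull (hf : ∀ x y, f (x * y) = f x * f y)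
    (cl : ∀ x y z : K, x * y = x * z → y = z) (cr : ∀ x y z : K, y * x = z * x → y = z)
    {M N : Set K} (h : Step (fun a b : K => a * b) (f 1) M N) :
    Step (fun a b : Q => a * b) 1 (f ⁻¹' M) (f ⁻¹' N) := by
  obtain ⟨h1, h2, h3, h4, h5⟩ := h
  refine ⟨fun x hx => h1 hx, h2, ?_, ?_, ?_⟩
  · intro a ha b hb
    change f (a * b) ∈ M
    rw [hf]
    exact h3 _ ha _ hb
  · intro x hx y hy m hm
    obtain ⟨⟨a, ha, ea⟩, ⟨b, hb, eb⟩, ⟨c, hc, ec⟩⟩ := h4 _ hx _ hy _ hm
    refine ⟨?_, ?_, ?_⟩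
    · obtain ⟨m', hm'⟩ := (AL.bijR x).2 (x * m)
      refine ⟨m', ?_, hm'.symm⟩
      have : f m' = a := by
        apply cr (f x)
        have h6 := congrArg f hm'
        simp only [hf] at h6
        exact h6.trans ea
      change f m' ∈ M
      rw [this]
      exact ha
    · obtain ⟨m', hm'⟩ := (AL.bijR (x * y)).2 ((m * x) * y)
      refine ⟨m', ?_, hm'.symm⟩
      have : f m' = b := by
        apply cr (f x * f y)
        have h6 := congrArg f hm'
        simp only [hf] at h6
        exact h6.trans eb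
      change f m' ∈ M
      rw [this]
      exact hb
    · obtain ⟨m', hm'⟩ := (AL.bijL (y * x)).2 (y * (x * m))
      refine ⟨m', ?_, hm'.symm⟩
      have : f m' = c := by
        apply cl (f y * f x)
        have h6 := congrArg f hm'
        simp only [hf] at h6
        exact h6.trans ec
      change f m' ∈ M
      rw [this]
      exact hc
  · intro x hx y hy z hz
    obtain ⟨⟨a, ha, ea⟩, ⟨b, hb, eb⟩⟩ := h5 _ hx _ hy _ hz
    refine ⟨?_, ?_⟩
    · obtain ⟨m', hm'⟩ := (AL.bijL (x * (y * z))).2 ((x * y) * z)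
      refine ⟨m', ?_, hm'.symm⟩
      have : f m' = a := by
        apply cl (f x * (f y * f z))
        have h6 := congrArg f hm'
        simp only [hf] at h6
        exact h6.trans ea
      change f m' ∈ M
      rw [this]
      exact ha
    · obtain ⟨m', hm'⟩ := (AL.bijL (y * x)).2 (x * y)
      refine ⟨m', ?_, hm'.symm⟩
      have : f m' = b := by
        apply cl (f y * f x)
        have h6 := congrArg f hm'
        simp only [hf] at h6
        exact h6.trans eb
      change f m' ∈ M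
      rw [this]
      exact hb

/-- the preimage of a solvable subloop is solvable -/
lemma solv_pull (hf : ∀ x y, f (x * y) = f x * f y)
    (cl : ∀ x y z : K, x * y = x * z → y = z) (cr : ∀ x y z : K, y * x = z * x → y = z)
    (hker : Solv (fun a b : Q => a * b) 1 {x | f x = f 1}) {P : Set K}
    (hP : Solv (fun a b : K => a * b) (f 1) P) :
    Solv (fun a b : Q => a * b) 1 (f ⁻¹' P) := by
  obtain ⟨-, n, S, hS0, hSn, hS⟩ := hker
  obtain ⟨hPc, n', S', hS0', hSn', hS'⟩ := hP
  refine ⟨?_, n + n', fun i => if i < n then S i else f ⁻¹' (S' (i - n)), ?_, ?_, ?_⟩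
  · intro a ha b hb
    change f (a * b) ∈ P
    rw [hf]
    exact hPc _ ha _ hb
  · rcases Nat.eq_zero_or_pos n with rfl | hn
    · beta_reduce
      rw [if_neg (lt_irrefl 0)]
      rw [hS0] at hSn
      rw [Nat.zero_sub, hS0', hSn]
      rfl
    · beta_reduce
      rw [if_pos hn, hS0]
  · beta_reduce
    rw [if_neg (by omega)]
    rw [Nat.add_sub_cancel_left, hSn']
  · intro i hi
    beta_reduce
    by_cases h1 : i + 1 < n
    · rw [if_pos (by omega), if_pos h1]
      exact hS i (by omega)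
    · by_cases h2 : i < n
      · rw [if_pos h2, if_neg h1]
        have h3 : i + 1 = n := by omega
        have h4 := hS i h2
        rw [h3, hSn] at h4
        rw [h3, Nat.sub_self, hS0']
        exact h4
      · rw [if_neg h2, if_neg h1]
        have h3 : i + 1 - n = (i - n) + 1 := by omega
        rw [h3]
        exact step_pull hf cl cr (hS' (i - n) (by omega))

/-- solvable subloops are solvable loops -/
lemma sol_sub [Finite Q] {H : Set Q} (h : Solv (fun a b : Q => a * b) 1 H) (hH : H675HL.Sub H) :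
    @Sol H (H99.subAL H hH) := by
  letI : AL H := H99.subAL H hH
  obtain ⟨-, n, S, hS0, hSn, hS⟩ := h
  have hsub : ∀ i ≤ n, S i ⊆ H := fun i hi => hSn ▸ series_sub hS i hi
  refine ⟨n, fun i => Subtype.val ⁻¹' (S i), ?_, ?_, ?_⟩
  · ext x
    beta_reduce
    rw [hS0]
    constructor
    · intro hx
      exact Subtype.ext hx
    · intro hx
      exact congrArg Subtype.val hx
  · beta_reduce
    rw [hSn]
    ext x
    exact ⟨fun _ => trivial, fun _ => x.2⟩
  · intro i hi
    obtain ⟨h1, h2, h3, h4, h5⟩ := hS i hi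
    refine ⟨fun x hx => h1 hx, h2, fun a ha b hb => h3 _ ha _ hb, ?_, ?_⟩
    · intro x hx y hy m hm
      obtain ⟨⟨a, ha, ea⟩, ⟨b, hb, eb⟩, ⟨c, hc, ec⟩⟩ := h4 _ hx _ hy _ hm
      exact ⟨⟨⟨a, hsub i hi.le ha⟩, ha, Subtype.ext ea⟩, ⟨⟨b, hsub i hi.le hb⟩, hb, Subtype.ext eb⟩,
        ⟨⟨c, hsub i hi.le hc⟩, hc, Subtype.ext ec⟩⟩
    · intro x hx y hy z hz
      obtain ⟨⟨a, ha, ea⟩, ⟨b, hb, eb⟩⟩ := h5 _ hx _ hy _ hz
      exact ⟨⟨⟨a, hsub i hi.le ha⟩, ha, Subtype.ext ea⟩,
        ⟨⟨b, hsub i hi.le hb⟩, hb, Subtype.ext eb⟩⟩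

/-- the fibres of a homomorphism have the same size -/
lemma card_fibre [Finite Q] (hf : ∀ x y, f (x * y) = f x * f y)
    (cl : ∀ x y z : K, x * y = x * z → y = z) (k : K) (hk : k ∈ Set.range f) :
    Nat.card {x : Q | f x = k} = Nat.card {x : Q | f x = f 1} := by
  obtain ⟨x, rfl⟩ := hk
  symm
  refine Nat.card_congr (Equiv.ofBijective (fun m : {x : Q | f x = f 1} =>
    (⟨x * m.1, ?_⟩ : {y : Q | f y = f x})) ⟨?_, ?_⟩)
  · have h := m.2
    change f m.1 = f 1 at h
    change f (x * m.1) = f x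
    rw [hf, h, ← hf]
    exact congrArg f (AL.mul_one' x)
  · intro m m' h
    exact Subtype.ext ((AL.bijL x).1 (congrArg Subtype.val h))
  · intro y
    obtain ⟨m, hm⟩ := (AL.bijL x).2 y.1
    have hy : f y.1 = f x := y.2
    refine ⟨⟨m, ?_⟩, Subtype.ext hm⟩
    change f m = f 1
    apply cl (f x)
    rw [← hf, ← hf]
    have h1 : f (x * m) = f y.1 := congrArg f hm
    rw [h1, hy]
    exact (congrArg f (AL.mul_one' x)).symm

lemma card_pre [Finite Q] (hf : ∀ x y, f (x * y) = f x * f y)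
    (cl : ∀ x y z : K, x * y = x * z → y = z) (P : Finset K) (hP : (P : Set K) ⊆ Set.range f) :
    Nat.card (f ⁻¹' (P : Set K)) = P.card * Nat.card {x : Q | f x = f 1} := by
  classical
  haveI := Fintype.ofFinite Q
  have h1 : Nat.card (f ⁻¹' (P : Set K)) = (Finset.univ.filter (fun x : Q => f x ∈ P)).card := by
    rw [Nat.card_eq_fintype_card, Fintype.card_subtype]
    congr 1
    ext x
    simp
  rw [h1, Finset.card_eq_sum_card_fiberwise (f := f) (t := P)
    (s := Finset.univ.filter (fun x : Q => f x ∈ P)) (fun x hx => (Finset.mem_filter.1 hx).2)]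
  rw [Finset.sum_const_nat (m := Nat.card {x : Q | f x = f 1})]
  intro k hk
  rw [← card_fibre hf cl k (hP hk)]
  rw [Nat.card_eq_fintype_card, Fintype.card_subtype]
  congr 1
  ext x
  simp only [Finset.mem_filter, Finset.mem_univ, true_and, Set.mem_setOf_eq]
  constructor
  · rintro ⟨-, h⟩
    exact h
  · intro h
    exact ⟨h ▸ hk, h⟩

end

lemma val_eq {p a n k : ℕ} (hp : p.Prime) (h : p ^ a * k = n) (hk : ¬ p ∣ k) (hn : n ≠ 0) :
    n.factorization p = a := by
  have hk0 : k ≠ 0 := by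
    rintro rfl
    exact hk (dvd_zero p)
  rw [← h, Nat.factorization_mul (pow_ne_zero a hp.ne_zero) hk0, hp.factorization_pow]
  simp [Nat.factorization_eq_zero_of_not_dvd hk]

/-- the main reduction -/
theorem core {Q : Type} [AL Q] [Finite Q] {K : Type} [Mul K] (f : Q → K)
    (hsur : Function.Surjective f) (hf : ∀ x y, f (x * y) = f x * f y)
    (cl : ∀ x y z : K, x * y = x * z → y = z) (cr : ∀ x y z : K, y * x = z * x → y = z)
    (hker : Solv (fun a b : Q => a * b) 1 {x | f x = f 1}) (p : ℕ) (hp : p.Prime) (P : Finset K)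
    (hP : Solv (fun a b : K => a * b) (f 1) (P : Set K))
    (hcard : P.card = p ^ (Nat.card K).factorization p) :
    ∃ H : Set Q, H675HL.Sub H ∧ Nat.card H = p ^ (Nat.card Q).factorization p := by
  classical
  haveI : Finite K := Finite.of_surjective f hsur
  haveI := Fintype.ofFinite K
  set S : Set Q := f ⁻¹' (P : Set K) with hSdef
  have hsol := solv_pull hf cl cr hker hP
  have hS : H675HL.Sub S := by
    refine ⟨?_, hsol.1⟩
    obtain ⟨-, n, A, hA0, hAn, hA⟩ := hsol
    have := series_mem hA0 hA n le_rfl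
    rw [hAn] at this
    exact this
  have h1 := sol_sub hsol hS
  letI : AL S := H99.subAL S hS
  obtain ⟨T, -, ⟨hT1, hT2⟩, k, hk1, hk2, hk3⟩ := hall S h1 {p}
  have hu : Nat.card (Set.univ : Set S) = Nat.card S := Nat.card_congr (Equiv.Set.univ S)
  rw [hu] at hk1
  have hTne : Nat.card T ≠ 0 := by
    have : Nonempty T := ⟨⟨1, hT1⟩⟩
    exact Nat.card_pos.ne'
  obtain ⟨a, ha⟩ : ∃ a, Nat.card T = p ^ a :=
    ⟨_, Nat.eq_prime_pow_of_unique_prime_dvd hTne fun {d} hd hdd => hk2 d hd hdd⟩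
  have hSne : Nat.card S ≠ 0 := by
    have : Nonempty S := ⟨⟨1, hS.1⟩⟩
    exact Nat.card_pos.ne'
  have hav : (Nat.card S).factorization p = a :=
    val_eq hp (ha ▸ hk1) (fun h => hk3 p hp h rfl) hSne
  have hcS : Nat.card S = P.card * Nat.card {x : Q | f x = f 1} :=
    card_pre hf cl P (fun k _ => hsur k)
  have hcQ : Nat.card Q = Nat.card K * Nat.card {x : Q | f x = f 1} := by
    have h2 := card_pre hf cl (Finset.univ : Finset K) (fun k _ => hsur k)
    rw [Finset.coe_univ, Set.preimage_univ, Finset.card_univ, ← Nat.card_eq_fintype_card] at h2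
    rw [← h2]
    exact (Nat.card_congr (Equiv.Set.univ Q)).symm
  have hNne : Nat.card {x : Q | f x = f 1} ≠ 0 := by
    intro h0
    rw [h0, mul_zero] at hcS
    exact hSne hcS
  have hKne : Nat.card K ≠ 0 := by
    have : Nonempty K := ⟨f 1⟩
    exact Nat.card_pos.ne'
  have hval : (Nat.card Q).factorization p = a := by
    rw [← hav, hcQ, hcS, hcard, Nat.factorization_mul hKne hNne,
      Nat.factorization_mul (pow_ne_zero _ hp.ne_zero) hNne, hp.factorization_pow]
    simp
  refine ⟨Subtype.val '' T, ⟨⟨1, hT1, rfl⟩, ?_⟩, ?_⟩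
  · rintro _ ⟨x, hx, rfl⟩ _ ⟨y, hy, rfl⟩
    exact ⟨x * y, hT2 x hx y hy, rfl⟩
  · rw [hval, ← ha]
    exact (Nat.card_image_of_injective Subtype.val_injective T)

/-- solvable subgroups of groups -/
lemma solv_group {G : Type} [Group G] (P : Subgroup G) (h : Group.IsSolvable P) :
    Solv (fun a b : G => a * b) 1 (P : Set G) := by
  obtain ⟨n, hn⟩ := h.solvable
  refine ⟨fun a ha b hb => P.mul_mem ha hb, n,
    fun i => (((derivedSeries P (n - i)).map P.subtype : Subgroup G) : Set G), ?_, ?_, ?_⟩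
  · simp only [Nat.sub_zero]
    rw [hn]
    ext x
    simp
  · simp only [Nat.sub_self, derivedSeries_zero]
    ext x
    simp
  · intro i hi
    obtain ⟨k, hk⟩ : ∃ k, n - i = k + 1 := ⟨n - i - 1, by omega⟩
    have hk' : n - (i + 1) = k := by omega
    simp only
    rw [hk, hk']
    have hle : derivedSeries P (k + 1) ≤ derivedSeries P k := derivedSeries_antitone P (by omega)
    have hnor : (derivedSeries P (k + 1)).Normal := derivedSeries_normal P (k + 1)
    refine ⟨?_, ?_, ?_, ?_, ?_⟩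
    · rintro _ ⟨x, hx, rfl⟩
      exact ⟨x, hle hx, rfl⟩
    · exact Subgroup.one_mem _
    · intro a ha b hb
      exact Subgroup.mul_mem _ ha hb
    · rintro _ ⟨x, hx, rfl⟩ _ ⟨y, hy, rfl⟩ _ ⟨m, hm, rfl⟩
      refine ⟨⟨_, ⟨x * m * x⁻¹, hnor.conj_mem m hm x, rfl⟩, ?_⟩, ⟨_, ⟨m, hm, rfl⟩, ?_⟩,
        ⟨_, ⟨m, hm, rfl⟩, ?_⟩⟩
      · simp
      · simp [mul_assoc]
      · simp [mul_assoc]
    · rintro _ ⟨x, hx, rfl⟩ _ ⟨y, hy, rfl⟩ _ ⟨z, hz, rfl⟩
      refine ⟨⟨1, Subgroup.one_mem _, ?_⟩, ⟨_, ⟨⁅x⁻¹, y⁻¹⁆, ?_, rfl⟩, ?_⟩⟩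
      · simp [mul_assoc]
      · rw [derivedSeries_succ]
        exact Subgroup.commutator_mem_commutator (Subgroup.inv_mem _ hx) (Subgroup.inv_mem _ hy)
      · simp [commutatorElement_def, mul_assoc]

/-- the case of a group -/
theorem core_group {Q : Type} [AL Q] [Finite Q] {K : Type} [Group K] (f : Q → K)
    (hf : ∀ x y, f (x * y) = f x * f y)
    (hker : Solv (fun a b : Q => a * b) 1 {x | f x = 1}) (p : ℕ) (hp : p.Prime) :
    ∃ H : Set Q, H675HL.Sub H ∧ Nat.card H = p ^ (Nat.card Q).factorization p := by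
  have hf1 : f 1 = 1 := by
    have h : f (1 * 1) = f 1 * f 1 := hf 1 1
    rw [show (1 * 1 : Q) = 1 from AL.mul_one' 1] at h
    exact (mul_eq_left.mp h.symm)
  let G : Subgroup K :=
    { carrier := Set.range f
      mul_mem' := by
        rintro _ _ ⟨x, rfl⟩ ⟨y, rfl⟩
        exact ⟨x * y, hf x y⟩
      one_mem' := ⟨1, hf1⟩
      inv_mem' := by
        rintro _ ⟨x, rfl⟩
        obtain ⟨y, hy⟩ := (AL.bijL x).2 1
        refine ⟨y, ?_⟩
        have h : f (x * y) = f 1 := congrArg f hy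
        rw [hf, hf1] at h
        exact eq_inv_of_mul_eq_one_right h }
  let g : Q → G := fun x => ⟨f x, x, rfl⟩
  have hg : ∀ x y, g (x * y) = g x * g y := fun x y => Subtype.ext (hf x y)
  have hsur : Function.Surjective g := by
    rintro ⟨_, x, rfl⟩
    exact ⟨x, rfl⟩
  have hg1 : g 1 = 1 := Subtype.ext hf1
  haveI : Finite G := Finite.of_surjective g hsur
  haveI : Fact p.Prime := ⟨hp⟩
  obtain ⟨P⟩ : Nonempty (Sylow p G) := inferInstance
  haveI : Group.IsNilpotent (P : Subgroup G) := P.isPGroup'.isNilpotent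
  have hsolv : Group.IsSolvable (P : Subgroup G) := inferInstance
  classical
  haveI := Fintype.ofFinite G
  refine core g hsur hg (fun x y z h => mul_left_cancel h) (fun x y z h => mul_right_cancel h) ?_
    p hp (P : Set G).toFinset ?_ ?_
  · have : {x | g x = g 1} = {x : Q | f x = 1} := by
      ext x
      rw [Set.mem_setOf_eq, hg1]
      exact ⟨fun h => congrArg Subtype.val h, fun h => Subtype.ext h⟩
    rw [this]
    exact hker
  · rw [hg1, Set.coe_toFinset]
    exact solv_group (P : Subgroup G) hsolv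
  · rw [Set.toFinset_card, ← Nat.card_eq_fintype_card]
    exact Sylow.card_eq_multiplicity P

end Pool.Agent.W155.SY


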